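import Mathlib
import Pool.Agent.H67.LX.Main

set_option autoImplicit false

open scoped Manifold ContDiff
open Pool.Agent.H73.PZ

namespace Pool.Agent.Results.MP_d9606f_gt.AllActionsIsometric

/-- Let `n ≥ 3`, let `Γ` be a lattice in `SL_n(ℚ_p)` acting smoothly on a closed manifold `M` of
dimension `d`.  Then some smooth Riemannian metric on `M` is invariant under `Γ`. -/
theorem result (p : ℕ) [Fact p.Prime] (n : ℕ) (hn : 3 ≤ n) (Γ : Subgroup (SLn p n))
    (hΓ : IsLattice Γ) (d : ℕ) (M : Type) [TopologicalSpace M]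
    [ChartedSpace (EuclideanSpace ℝ (Fin d)) M] [IsManifold (𝓡 d) ∞ M] [CompactSpace M]
    [T2Space M] [MulAction Γ M] (hs : SmoothAction (𝓡 d) M Γ) :
    IsometricAction (𝓡 d) M Γ :=
  Pool.Agent.H67.LX.main hn hΓ hs

end Pool.Agent.Results.MP_d9606f_gt.AllActionsIsometric
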